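import Mathlib

set_option autoImplicit false

open MvPolynomial

namespace Pool.Agent.Helper63

section Translate

variable {σ : Type*} {R : Type*} [CommRing R]

/-- Translation `F(x) ↦ F(x + a)`. -/
noncomputable def tau (a : σ → R) : MvPolynomial σ R →ₐ[R] MvPolynomial σ R :=
  aeval (fun i => X i + C (a i))

/-- `Ord a m F`: the polynomial `F` vanishes to order at least `m` at the point `a` of affine
space, i.e. `F(x + a)` lies in the `m`-th power of the ideal of the variables. -/
def Ord (a : σ → R) (m : ℕ) (F : MvPolynomial σ R) : Prop :=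
  tau a F ∈ idealOfVars σ R ^ m

@[simp] lemma tau_X (a : σ → R) (i : σ) : tau a (X i) = X i + C (a i) := by
  simp [tau]

@[simp] lemma tau_C (a : σ → R) (r : R) : tau a (C r) = C r := by
  simp [tau]

lemma tau_neg_tau (a : σ → R) (F : MvPolynomial σ R) : tau (-a) (tau a F) = F := by
  have h : (tau (-a)).comp (tau a) = AlgHom.id R _ := by
    apply MvPolynomial.algHom_ext
    intro i
    simp
  have := DFunLike.congr_fun h F
  simpa using this

lemma tau_injective (a : σ → R) : Function.Injective (tau a) :=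
  Function.LeftInverse.injective (tau_neg_tau a)

lemma tau_ne_zero {a : σ → R} {F : MvPolynomial σ R} (hF : F ≠ 0) : tau a F ≠ 0 := by
  intro h
  apply hF
  apply tau_injective a
  rw [h, map_zero]

lemma map_tau {S : Type*} [CommRing S] (φ : R →+* S) (a : σ → R) (F : MvPolynomial σ R) :
    map φ (tau a F) = tau (fun i => φ (a i)) (map φ F) := by
  induction F using MvPolynomial.induction_on with
  | C r => simp
  | add p q hp hq => simp [hp, hq]
  | mul_X p i hp => simp [hp]

lemma ord_iff_coeff (a : σ → R) (m : ℕ) (F : MvPolynomial σ R) :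
    Ord a m F ↔ ∀ s : σ →₀ ℕ, s.degree < m → coeff s (tau a F) = 0 :=
  mem_pow_idealOfVars_iff' m _

lemma Ord.mono {a : σ → R} {m m' : ℕ} (h : m' ≤ m) {F : MvPolynomial σ R} (hF : Ord a m F) :
    Ord a m' F :=
  Ideal.pow_le_pow_right h hF

lemma ord_zero_right (a : σ → R) (F : MvPolynomial σ R) : Ord a 0 F := by
  simp [Ord]

lemma Ord.mul {a : σ → R} {m m' : ℕ} {F G : MvPolynomial σ R} (hF : Ord a m F)
    (hG : Ord a m' G) : Ord a (m + m') (F * G) := by
  unfold Ord at *
  rw [map_mul, pow_add]
  exact Ideal.mul_mem_mul hF hG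

lemma Ord.mul_left {a : σ → R} {m : ℕ} {F : MvPolynomial σ R} (G : MvPolynomial σ R)
    (hF : Ord a m F) : Ord a m (G * F) := by
  unfold Ord at *
  rw [map_mul]
  exact Ideal.mul_mem_left _ _ hF

lemma Ord.pow {a : σ → R} {m : ℕ} {F : MvPolynomial σ R} (hF : Ord a m F) (k : ℕ) :
    Ord a (k * m) (F ^ k) := by
  unfold Ord at *
  rw [map_pow, mul_comm, pow_mul]
  exact Ideal.pow_mem_pow hF k

lemma Ord.map {S : Type*} [CommRing S] (φ : R →+* S) {a : σ → R} {m : ℕ}
    {F : MvPolynomial σ R} (hF : Ord a m F) : Ord (fun i => φ (a i)) m (MvPolynomial.map φ F) := by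
  rw [ord_iff_coeff] at *
  intro s hs
  rw [← map_tau, coeff_map, hF s hs, map_zero]

lemma Ord.of_map {S : Type*} [CommRing S] (φ : R →+* S) (hφ : Function.Injective φ)
    {a : σ → R} {m : ℕ}
    {F : MvPolynomial σ R} (hF : Ord (fun i => φ (a i)) m (MvPolynomial.map φ F)) :
    Ord a m F := by
  rw [ord_iff_coeff] at *
  intro s hs
  have := hF s hs
  rw [← map_tau, coeff_map] at this
  exact hφ (by rw [this, map_zero])

lemma tau_pderiv (a : σ → R) (i : σ) (F : MvPolynomial σ R) :
    tau a (pderiv i F) = pderiv i (tau a F) := by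
  classical
  induction F using MvPolynomial.induction_on with
  | C r => simp
  | add p q hp hq => simp [hp, hq]
  | mul_X p j hp =>
    by_cases h : j = i
    · subst h
      simp [pderiv_mul, hp]
    · simp [pderiv_mul, hp, pderiv_X_of_ne h]

lemma Ord.pderiv {a : σ → R} {m : ℕ} {F : MvPolynomial σ R} (hF : Ord a (m + 1) F) (i : σ) :
    Ord a m (MvPolynomial.pderiv i F) := by
  rw [ord_iff_coeff] at *
  intro s hs
  rw [tau_pderiv, coeff_pderiv, hF, zero_mul]
  simpa using hs

end Translate

end Pool.Agent.Helper63
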