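import Mathlib
import Pool.Agent.Helper63.Translate

set_option autoImplicit false

open MvPolynomial

namespace Pool.Agent.Helper63

section Taylor

variable {σ : Type*} [Fintype σ]

lemma totalDegree_tau_le {R : Type*} [CommRing R] (a : σ → R) (F : MvPolynomial σ R) :
    (tau a F).totalDegree ≤ F.totalDegree := by
  rw [tau, aeval_def, eval₂_eq']
  apply totalDegree_finsetSum_le
  intro s hs
  refine (totalDegree_mul _ _).trans ?_
  have h1 : ((algebraMap R (MvPolynomial σ R)) (coeff s F)).totalDegree = 0 := by
    rw [MvPolynomial.algebraMap_eq, totalDegree_C]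
  rw [h1, zero_add]
  refine (totalDegree_finsetProd _ _).trans ?_
  have h2 : ∀ i ∈ Finset.univ, ((X i + C (a i) : MvPolynomial σ R) ^ s i).totalDegree ≤ s i := by
    intro i _
    refine (totalDegree_pow _ _).trans ?_
    have h3 : (X i + C (a i) : MvPolynomial σ R).totalDegree ≤ 1 := by
      refine (totalDegree_add _ _).trans ?_
      rw [totalDegree_C]
      refine max_le ?_ (by norm_num)
      rcases subsingleton_or_nontrivial R with h | h
      · have : (X i : MvPolynomial σ R) = 0 := Subsingleton.elim _ _
        rw [this]; simp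
      · rw [totalDegree_X]
    calc s i * _ ≤ s i * 1 := Nat.mul_le_mul_left _ h3
      _ = s i := mul_one _
  refine (Finset.sum_le_sum h2).trans ?_
  rw [← Finsupp.degree_eq_sum]
  exact le_totalDegree hs

lemma degree_le_of_mem_support_tau {R : Type*} [CommRing R] (a : σ → R) {F : MvPolynomial σ R}
    {d : ℕ} (hF : F.IsHomogeneous d) {s : σ →₀ ℕ} (hs : s ∈ (tau a F).support) :
    s.degree ≤ d :=
  (le_totalDegree hs).trans ((totalDegree_tau_le a F).trans hF.totalDegree_le)

lemma aeval_scale {R S : Type*} [CommRing R] [CommRing S] [Algebra R S] {F : MvPolynomial σ R}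
    {d : ℕ} (hF : F.IsHomogeneous d) (c : S) (y : σ → S) :
    aeval (fun i => c * y i) F = c ^ d * aeval y F := by
  rw [aeval_def, eval₂_eq', aeval_def, eval₂_eq', Finset.mul_sum]
  apply Finset.sum_congr rfl
  intro s hs
  have hd : s.degree = d := by
    have := hF (mem_support_iff.mp hs)
    rw [← this, Finsupp.degree_eq_weight_one]; rfl
  rw [← hd, Finsupp.degree_eq_sum, ← Finset.prod_pow_eq_pow_sum]
  simp_rw [mul_pow]
  rw [Finset.prod_mul_distrib]
  ring

/-- The Taylor expansion of a homogeneous polynomial along the line through `a`. -/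
lemma taylor_field {R S : Type*} [CommRing R] [Field S] [Algebra R S] {F : MvPolynomial σ R}
    {d : ℕ} (hF : F.IsHomogeneous d) (a : σ → R) (c : S) (hc : c ≠ 0) (l : σ → S) :
    aeval (fun i => algebraMap R S (a i) * c + l i) F =
      ∑ s ∈ (tau a F).support, algebraMap R S (coeff s (tau a F)) *
        (c ^ (d - s.degree) * ∏ i, l i ^ s i) := by
  have h1 : (fun i => algebraMap R S (a i) * c + l i) =
      fun i => c * (l i / c + algebraMap R S (a i)) := by
    funext i
    field_simp
    ring
  rw [h1, aeval_scale hF]
  have h2 : aeval (fun i => l i / c + algebraMap R S (a i)) F =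
      aeval (fun i => l i / c) (tau a F) := by
    have : (aeval (fun i => l i / c + algebraMap R S (a i)) : MvPolynomial σ R →ₐ[R] S) =
        (aeval (fun i => l i / c)).comp (tau a) := by
      apply MvPolynomial.algHom_ext
      intro i
      simp
    rw [this]; rfl
  rw [h2, aeval_def, eval₂_eq', Finset.mul_sum]
  apply Finset.sum_congr rfl
  intro s hs
  have hd := degree_le_of_mem_support_tau a hF hs
  simp_rw [div_pow]
  rw [Finset.prod_div_distrib, Finset.prod_pow_eq_pow_sum, ← Finsupp.degree_eq_sum,
    pow_sub₀ c hc hd]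
  field_simp

/-- The Taylor expansion of a homogeneous polynomial at a point `a` with `a j ≠ 0`, in terms of
the linear forms `X i - a i * (X j / a j)` vanishing at `a`. -/
lemma taylor {K : Type*} [Field K] {F : MvPolynomial σ K} {d : ℕ} (hF : F.IsHomogeneous d)
    (a : σ → K) (j : σ) (hj : a j ≠ 0) :
    F = ∑ s ∈ (tau a F).support, C (coeff s (tau a F)) *
        ((C (a j)⁻¹ * X j) ^ (d - s.degree) *
          ∏ i, (X i - C (a i) * (C (a j)⁻¹ * X j)) ^ s i) := by
  let S := FractionRing (MvPolynomial σ K)
  have hinj : Function.Injective (algebraMap (MvPolynomial σ K) S) :=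
    IsFractionRing.injective _ _
  apply hinj
  let c : S := algebraMap (MvPolynomial σ K) S (C (a j)⁻¹ * X j)
  have hc : c ≠ 0 := by
    intro h
    have h0 : (C (a j)⁻¹ * X j : MvPolynomial σ K) = 0 := hinj (by rw [map_zero]; exact h)
    rcases mul_eq_zero.mp h0 with h' | h'
    · rw [C_eq_zero] at h'
      exact inv_ne_zero hj h'
    · exact X_ne_zero j h'
  let l : σ → S := fun i => algebraMap (MvPolynomial σ K) S (X i - C (a i) * (C (a j)⁻¹ * X j))
  have hT := taylor_field hF a c hc l
  have hy : (fun i => algebraMap K S (a i) * c + l i) =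
      fun i => algebraMap (MvPolynomial σ K) S (X i) := by
    funext i
    simp only [c, l]
    rw [IsScalarTower.algebraMap_apply K (MvPolynomial σ K) S, MvPolynomial.algebraMap_eq,
      ← map_mul, ← map_add]
    congr 1
    ring
  rw [hy] at hT
  have hL : aeval (fun i => algebraMap (MvPolynomial σ K) S (X i)) F =
      algebraMap (MvPolynomial σ K) S F := by
    have : (aeval (fun i => algebraMap (MvPolynomial σ K) S (X i)) : MvPolynomial σ K →ₐ[K] S) =
        (IsScalarTower.toAlgHom K (MvPolynomial σ K) S) := by
      apply MvPolynomial.algHom_ext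
      intro i
      simp
    rw [this]; rfl
  rw [hL] at hT
  rw [hT, map_sum]
  apply Finset.sum_congr rfl
  intro s _
  rw [map_mul, map_mul, map_pow, map_prod,
    IsScalarTower.algebraMap_apply K (MvPolynomial σ K) S, MvPolynomial.algebraMap_eq]
  simp only [c, l, map_pow]

end Taylor

end Pool.Agent.Helper63
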