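import Mathlib
import Pool.Agent.Helper63.Translate
import Pool.Agent.Helper63.Taylor

set_option autoImplicit false

open MvPolynomial

namespace Pool.Agent.Helper63

section DivMod

variable {σ : Type*}

/-- Componentwise remainder modulo `q`. -/
noncomputable def modq (q : ℕ) (β : σ →₀ ℕ) : σ →₀ ℕ := β.mapRange (· % q) (Nat.zero_mod q)

/-- Componentwise quotient by `q`. -/
noncomputable def divq (q : ℕ) (β : σ →₀ ℕ) : σ →₀ ℕ := β.mapRange (· / q) (Nat.zero_div q)

@[simp] lemma modq_apply (q : ℕ) (β : σ →₀ ℕ) (i : σ) : modq q β i = β i % q := rfl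

@[simp] lemma divq_apply (q : ℕ) (β : σ →₀ ℕ) (i : σ) : divq q β i = β i / q := rfl

lemma smul_divq_add_modq (q : ℕ) (β : σ →₀ ℕ) : q • divq q β + modq q β = β := by
  ext i
  simp [Nat.div_add_mod]

lemma modq_smul_add (q : ℕ) (α μ : σ →₀ ℕ) : modq q (q • α + μ) = modq q μ := by
  ext i
  simp

lemma divq_smul_add {q : ℕ} (hq : 0 < q) (α μ : σ →₀ ℕ) :
    divq q (q • α + μ) = α + divq q μ := by
  ext i
  simp [Nat.mul_add_div hq]

lemma modq_eq_self {q : ℕ} {μ : σ →₀ ℕ} (hμ : ∀ i, μ i < q) : modq q μ = μ := by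
  ext i
  simp [Nat.mod_eq_of_lt (hμ i)]

lemma divq_eq_zero {q : ℕ} {μ : σ →₀ ℕ} (hμ : ∀ i, μ i < q) : divq q μ = 0 := by
  ext i
  simp [Nat.div_eq_of_lt (hμ i)]

end DivMod

section Section

variable {σ : Type*} {R : Type*} [CommRing R]

open Classical in
/-- The `R`-linear map extracting the monomials with exponent congruent to `μ` modulo `q`. -/
noncomputable def sect (q : ℕ) (μ : σ →₀ ℕ) : MvPolynomial σ R →ₗ[R] MvPolynomial σ R :=
  (basisMonomials σ R).constr R
    (fun β => if modq q β = μ then monomial (divq q β) 1 else 0)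

open Classical in
lemma sect_monomial (q : ℕ) (μ β : σ →₀ ℕ) (c : R) :
    sect q μ (monomial β c) = if modq q β = μ then monomial (divq q β) c else 0 := by
  have h : (monomial β c : MvPolynomial σ R) = c • (basisMonomials σ R β) := by
    rw [coe_basisMonomials, smul_monomial, smul_eq_mul, mul_one]
  rw [h, map_smul, sect, Module.Basis.constr_basis]
  split_ifs
  · rw [smul_monomial, smul_eq_mul, mul_one]
  · rw [smul_zero]

lemma coeff_sect {q : ℕ} {μ : σ →₀ ℕ} (hμ : ∀ i, μ i < q) (g : MvPolynomial σ R)
    (α : σ →₀ ℕ) : coeff α (sect q μ g) = coeff (q • α + μ) g := by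
  classical
  induction g using MvPolynomial.induction_on' with
  | monomial β c =>
    rw [sect_monomial, coeff_monomial]
    by_cases h : modq q β = μ
    · rw [if_pos h, coeff_monomial]
      have : divq q β = α ↔ β = q • α + μ := by
        constructor
        · intro h'
          rw [← h', ← h, smul_divq_add_modq]
        · intro h'
          have hq : 0 < q ∨ IsEmpty σ := by
            rcases isEmpty_or_nonempty σ with h1 | ⟨⟨i⟩⟩
            · right; exact h1
            · left; exact lt_of_le_of_lt (Nat.zero_le _) (hμ i)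
          rcases hq with hq | hq
          · rw [h', divq_smul_add hq, divq_eq_zero hμ, add_zero]
          · exact Subsingleton.elim _ _
      by_cases h1 : divq q β = α
      · rw [if_pos h1, if_pos (this.mp h1)]
      · rw [if_neg h1, if_neg (fun h2 => h1 (this.mpr h2))]
    · rw [if_neg h, coeff_zero, if_neg]
      intro h'
      apply h
      rw [h', modq_smul_add, modq_eq_self hμ]
  | add f g hf hg => rw [map_add, coeff_add, coeff_add, hf, hg]

lemma sect_expand_mul {q : ℕ} (hq : 0 < q) (μ : σ →₀ ℕ) (u r : MvPolynomial σ R) :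
    sect q μ (expand q u * r) = u * sect q μ r := by
  classical
  induction u using MvPolynomial.induction_on' with
  | monomial α a =>
    induction r using MvPolynomial.induction_on' with
    | monomial β b =>
      rw [expand_monomial, monomial_mul, sect_monomial, sect_monomial, modq_smul_add,
        divq_smul_add hq]
      split_ifs
      · rw [monomial_mul]
      · rw [mul_zero]
    | add f g hf hg => rw [mul_add, map_add, hf, hg, map_add, mul_add]
  | add f g hf hg => rw [map_add, add_mul, map_add, hf, hg, add_mul]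

open Classical in
/-- The finite set of exponents all of whose entries are less than `q`. -/
noncomputable def box (σ : Type*) [Fintype σ] (q : ℕ) : Finset (σ →₀ ℕ) :=
  (Fintype.piFinset (fun _ : σ => Finset.range q)).map
    Finsupp.equivFunOnFinite.symm.toEmbedding

lemma mem_box [Fintype σ] {q : ℕ} {μ : σ →₀ ℕ} : μ ∈ box σ q ↔ ∀ i, μ i < q := by
  classical
  simp only [box, Finset.mem_map, Fintype.mem_piFinset, Finset.mem_range]
  constructor
  · rintro ⟨f, hf, rfl⟩ i
    simpa using hf i
  · intro h
    exact ⟨fun i => μ i, h, by ext i; simp⟩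

lemma sum_expand_sect [Fintype σ] {q : ℕ} (hq : 0 < q) (g : MvPolynomial σ R) :
    ∑ ν ∈ box σ q, expand q (sect q ν g) * monomial ν 1 = g := by
  classical
  induction g using MvPolynomial.induction_on' with
  | monomial β c =>
    rw [Finset.sum_eq_single (modq q β)]
    · rw [sect_monomial, if_pos rfl, expand_monomial, monomial_mul, smul_divq_add_modq, mul_one]
    · intro ν _ hν
      rw [sect_monomial, if_neg (fun h => hν h.symm), map_zero, zero_mul]
    · intro h
      exact absurd (mem_box.mpr (fun i => Nat.mod_lt _ hq)) h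
  | add f g hf hg =>
    simp only [map_add, add_mul, Finset.sum_add_distrib]
    rw [hf, hg]

end Section

section Cart

variable {σ : Type*} [Fintype σ] {L : Type*} [Field L] (p : ℕ) [Fact p.Prime] [CharP L p]
  [PerfectRing L p] (e : ℕ)

/-- The inverse of the `e`-fold Frobenius, as a ring homomorphism. -/
noncomputable def rho (L : Type*) [Field L] (p : ℕ) [Fact p.Prime] [CharP L p]
    [PerfectRing L p] (e : ℕ) : L →+* L :=
  (iterateFrobeniusEquiv L p e).symm.toRingHom

lemma rho_pow (x : L) : rho L p e (x ^ p ^ e) = x := by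
  have h : x ^ p ^ e = iterateFrobeniusEquiv L p e x := by
    rw [iterateFrobeniusEquiv_def]
  rw [h]
  exact RingEquiv.symm_apply_apply _ _

lemma pow_rho (x : L) : (rho L p e x) ^ p ^ e = x := by
  have h : (rho L p e x) ^ p ^ e = iterateFrobeniusEquiv L p e (rho L p e x) := by
    rw [iterateFrobeniusEquiv_def]
  rw [h]
  exact RingEquiv.apply_symm_apply _ _

/-- The Cartier-type operator: writing `g = ∑ c_μ ^ q * x ^ μ` with exponents `μ` in the box,
`cart μ g = c_μ`. -/
noncomputable def cart (μ : σ →₀ ℕ) (g : MvPolynomial σ L) : MvPolynomial σ L :=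
  map (rho L p e) (sect (p ^ e) μ g)

lemma cart_add (μ : σ →₀ ℕ) (f g : MvPolynomial σ L) :
    cart p e μ (f + g) = cart p e μ f + cart p e μ g := by
  simp [cart]

lemma cart_zero (μ : σ →₀ ℕ) : cart p e μ (0 : MvPolynomial σ L) = 0 := by
  simp [cart]

lemma cart_sum {ι : Type*} (μ : σ →₀ ℕ) (s : Finset ι) (f : ι → MvPolynomial σ L) :
    cart p e μ (∑ i ∈ s, f i) = ∑ i ∈ s, cart p e μ (f i) := by
  simp [cart]

lemma coeff_cart {μ : σ →₀ ℕ} (hμ : ∀ i, μ i < p ^ e) (g : MvPolynomial σ L) (α : σ →₀ ℕ) :
    coeff α (cart p e μ g) = rho L p e (coeff (p ^ e • α + μ) g) := by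
  rw [cart, coeff_map, coeff_sect hμ]

lemma pow_eq_expand (u : MvPolynomial σ L) :
    u ^ p ^ e = expand (p ^ e) (map (iterateFrobenius L p e) u) := by
  rw [← map_iterateFrobenius_expand p u e, map_expand]

lemma cart_pow_mul (μ : σ →₀ ℕ) (u r : MvPolynomial σ L) :
    cart p e μ (u ^ p ^ e * r) = u * cart p e μ r := by
  have hq : 0 < p ^ e := pow_pos (Fact.out : p.Prime).pos e
  rw [cart, pow_eq_expand, sect_expand_mul hq, map_mul, cart]
  congr 1
  rw [map_map]
  have : (rho L p e).comp (iterateFrobenius L p e) = RingHom.id L := by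
    ext x
    rw [RingHom.comp_apply, iterateFrobenius_def, rho_pow, RingHom.id_apply]
  rw [this, map_id]

lemma sum_cart_pow (g : MvPolynomial σ L) :
    ∑ ν ∈ box σ (p ^ e), (cart p e ν g) ^ p ^ e * monomial ν 1 = g := by
  have hq : 0 < p ^ e := pow_pos (Fact.out : p.Prime).pos e
  conv_rhs => rw [← sum_expand_sect hq g]
  apply Finset.sum_congr rfl
  intro ν _
  congr 1
  rw [pow_eq_expand, cart, map_map]
  congr 1
  have : (iterateFrobenius L p e).comp (rho L p e) = RingHom.id L := by
    ext x
    rw [RingHom.comp_apply, iterateFrobenius_def, pow_rho, RingHom.id_apply]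
  rw [this, map_id]

end Cart

end Pool.Agent.Helper63
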