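import Mathlib
import Pool.Agent.Helper63.Cartier

set_option autoImplicit false
set_option linter.unusedSectionVars false

open MvPolynomial

namespace Pool.Agent.Helper63

section TauMonomial

variable {σ : Type*} {R : Type*} [CommRing R]

lemma tau_monomial_aux (a : σ → R) (n : ℕ) (ν : σ →₀ ℕ) (hν : ν.degree = n) :
    (∀ s, coeff s (tau a (monomial ν (1 : R))) ≠ 0 → s ≤ ν) ∧
      coeff ν (tau a (monomial ν (1 : R))) = 1 := by
  classical
  induction n generalizing ν with
  | zero =>
    have h0 : ν = 0 := (Finsupp.degree_eq_zero_iff ν).mp hν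
    subst h0
    have h1 : tau a (monomial 0 (1 : R)) = C 1 := by
      change tau a (C 1) = C 1
      exact tau_C a 1
    rw [h1]
    constructor
    · intro s hs
      rw [coeff_C] at hs
      by_cases h : 0 = s
      · exact h ▸ le_refl _
      · rw [if_neg h] at hs; exact absurd rfl hs
    · simp
  | succ n ih =>
    have hne : ν ≠ 0 := by
      rintro rfl
      simp at hν
    obtain ⟨i, hi⟩ : ∃ i, ν i ≠ 0 := by
      by_contra h
      push Not at h
      exact hne (Finsupp.ext h)
    obtain ⟨ν', hν'⟩ : ∃ ν', ν = ν' + Finsupp.single i 1 := by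
      refine ⟨ν - Finsupp.single i 1, ?_⟩
      rw [tsub_add_cancel_of_le]
      rw [Finsupp.single_le_iff]
      exact Nat.one_le_iff_ne_zero.mpr hi
    have hdeg : ν'.degree = n := by
      rw [hν', map_add, Finsupp.degree_single] at hν
      omega
    obtain ⟨ih1, ih2⟩ := ih ν' hdeg
    have hmon : (monomial ν (1 : R)) = monomial ν' 1 * X i := by
      rw [hν', X, monomial_mul, mul_one]
    have htau : tau a (monomial ν (1 : R)) =
        tau a (monomial ν' 1) * X i + C (a i) * tau a (monomial ν' 1) := by
      rw [hmon, map_mul, tau_X]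
      ring
    constructor
    · intro s hs
      rw [htau, coeff_add, coeff_mul_X', coeff_C_mul] at hs
      by_cases h1 : coeff s (tau a (monomial ν' (1 : R))) = 0
      · rw [h1, mul_zero, add_zero] at hs
        split_ifs at hs with h2
        · have h3 := ih1 _ hs
          rw [hν']
          have h4 : Finsupp.single i 1 ≤ s := by
            rw [Finsupp.single_le_iff]
            exact Nat.one_le_iff_ne_zero.mpr (Finsupp.mem_support_iff.mp h2)
          calc s = s - Finsupp.single i 1 + Finsupp.single i 1 := by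
                  rw [tsub_add_cancel_of_le h4]
            _ ≤ ν' + Finsupp.single i 1 := add_le_add_left h3 _
        · exact absurd rfl hs
      · have h3 := ih1 _ h1
        rw [hν']
        exact h3.trans (le_add_of_nonneg_right zero_le)
    · rw [htau, coeff_add, coeff_mul_X', coeff_C_mul, if_pos (Finsupp.mem_support_iff.mpr hi)]
      have h5 : ν - Finsupp.single i 1 = ν' := by
        rw [hν', add_tsub_cancel_right]
      have h6 : coeff ν (tau a (monomial ν' (1 : R))) = 0 := by
        by_contra h
        have := ih1 _ h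
        have h7 := this i
        rw [hν'] at h7
        simp at h7
      rw [h5, ih2, h6, mul_zero, add_zero]

end TauMonomial

section Top

variable {σ : Type*} [Fintype σ] {L : Type*} [Field L] (p : ℕ) [Fact p.Prime] [CharP L p]
  [PerfectRing L p] (e : ℕ)

lemma cart_tau_monomial_of_ne (a : σ → L) {μ ν : σ →₀ ℕ} (hμ : ∀ i, μ i < p ^ e)
    (hle : ν.degree ≤ μ.degree) (hne : ν ≠ μ) :
    cart p e μ (tau a (monomial ν (1 : L))) = 0 := by
  ext α
  rw [coeff_cart p e hμ, coeff_zero]
  have : coeff (p ^ e • α + μ) (tau a (monomial ν (1 : L))) = 0 := by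
    by_contra h
    have h1 := (tau_monomial_aux a _ ν rfl).1 _ h
    have h2 : μ ≤ ν := le_trans (le_add_of_nonneg_left zero_le) h1
    obtain ⟨δ, hδ⟩ := le_iff_exists_add.mp h2
    have h3 : δ.degree = 0 := by
      rw [hδ, map_add] at hle
      omega
    rw [Finsupp.degree_eq_zero_iff] at h3
    rw [h3, add_zero] at hδ
    exact hne hδ
  rw [this, map_zero]

lemma cart_tau_monomial_self (a : σ → L) {μ : σ →₀ ℕ} (hμ : ∀ i, μ i < p ^ e) :
    cart p e μ (tau a (monomial μ (1 : L))) = 1 := by
  classical
  have hq : p ^ e ≠ 0 := (pow_pos (Fact.out : p.Prime).pos e).ne'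
  ext α
  rw [coeff_cart p e hμ, coeff_one]
  by_cases h0 : 0 = α
  · subst h0
    rw [if_pos rfl, smul_zero, zero_add, (tau_monomial_aux a _ μ rfl).2, map_one]
  · rw [if_neg h0]
    have : coeff (p ^ e • α + μ) (tau a (monomial μ (1 : L))) = 0 := by
      by_contra h
      have h1 := (tau_monomial_aux a _ μ rfl).1 _ h
      apply h0
      ext i
      have h2 := h1 i
      simp only [Finsupp.coe_add, Finsupp.coe_smul, Pi.add_apply, Pi.smul_apply,
        smul_eq_mul] at h2
      have h3 : p ^ e * α i = 0 := by omega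
      rcases Nat.mul_eq_zero.mp h3 with h4 | h4
      · exact absurd h4 hq
      · simp [h4]
    rw [this, map_zero]

/-- If `μ` has maximal degree among the exponents with `c_μ ≠ 0`, then translation commutes with
extracting the component `c_μ`. -/
lemma cart_tau_of_top (a : σ → L) (g : MvPolynomial σ L) {μ : σ →₀ ℕ} (hμ : ∀ i, μ i < p ^ e)
    (htop : ∀ ν ∈ box σ (p ^ e), cart p e ν g ≠ 0 → ν.degree ≤ μ.degree) :
    cart p e μ (tau a g) = tau a (cart p e μ g) := by
  conv_lhs => rw [← sum_cart_pow p e g]
  rw [map_sum, cart_sum, Finset.sum_eq_single μ]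
  · rw [map_mul, map_pow, cart_pow_mul, cart_tau_monomial_self p e a hμ, mul_one]
  · intro ν hν hne
    rw [map_mul, map_pow, cart_pow_mul]
    by_cases h : cart p e ν g = 0
    · rw [h, map_zero, zero_mul]
    · rw [cart_tau_monomial_of_ne p e a hμ (htop ν hν h) hne, mul_zero]
  · intro h
    exact absurd (mem_box.mpr hμ) h

/-- The order of vanishing of the top component. -/
lemma ord_cart_of_top (a : σ → L) (g : MvPolynomial σ L) {μ : σ →₀ ℕ} (hμ : ∀ i, μ i < p ^ e)
    (htop : ∀ ν ∈ box σ (p ^ e), cart p e ν g ≠ 0 → ν.degree ≤ μ.degree) {M : ℕ}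
    (hg : Ord a M g) {j : ℕ} (hj : ∀ t < j, p ^ e * t + μ.degree < M) :
    Ord a j (cart p e μ g) := by
  rw [ord_iff_coeff]
  intro s hs
  rw [← cart_tau_of_top p e a g hμ htop, coeff_cart p e hμ]
  rw [ord_iff_coeff] at hg
  rw [hg, map_zero]
  rw [map_add, map_nsmul, smul_eq_mul]
  exact hj _ hs

/-- Homogeneity of the components. -/
lemma cart_isHomogeneous {g : MvPolynomial σ L} {N : ℕ} (hg : g.IsHomogeneous N) {μ : σ →₀ ℕ}
    (hμ : ∀ i, μ i < p ^ e) (hne : cart p e μ g ≠ 0) :
    ∃ b, (cart p e μ g).IsHomogeneous b ∧ p ^ e * b + μ.degree = N := by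
  have hq : 0 < p ^ e := pow_pos (Fact.out : p.Prime).pos e
  have key : ∀ s, coeff s (cart p e μ g) ≠ 0 → p ^ e * s.degree + μ.degree = N := by
    intro s hs
    rw [coeff_cart p e hμ] at hs
    have h1 : coeff (p ^ e • s + μ) g ≠ 0 := by
      intro h; apply hs; rw [h, map_zero]
    have h2 := hg h1
    rw [← h2]
    have : Finsupp.weight (1 : σ → ℕ) (p ^ e • s + μ) = (p ^ e • s + μ).degree := by
      rw [Finsupp.degree_eq_weight_one]; rfl
    rw [this, map_add, map_nsmul, smul_eq_mul]
  obtain ⟨s, hs⟩ := MvPolynomial.exists_coeff_ne_zero hne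
  refine ⟨s.degree, ?_, key s hs⟩
  intro t ht
  have h1 := key s hs
  have h2 := key t ht
  have h3 : p ^ e * t.degree = p ^ e * s.degree := by omega
  have h4 := Nat.eq_of_mul_eq_mul_left hq h3
  rw [← h4, Finsupp.degree_eq_weight_one]
  rfl

end Top

end Pool.Agent.Helper63
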