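import Mathlib
import Pool.Agent.Helper63.Top

set_option autoImplicit false
set_option linter.unusedSectionVars false

open MvPolynomial

namespace Pool.Agent.Helper63

section PtIdeal

variable {σ : Type*} {K : Type*} [Field K]

/-- The homogeneous ideal of the point with homogeneous coordinates `a`: the ideal generated by
the forms vanishing at `a`. -/
noncomputable def ptIdeal (a : σ → K) : Ideal (MvPolynomial σ K) :=
  Ideal.span {f | ∃ d, f.IsHomogeneous d ∧ eval a f = 0}

lemma coeff_zero_tau (a : σ → K) (f : MvPolynomial σ K) : coeff 0 (tau a f) = eval a f := by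
  have h : (constantCoeff).comp (tau a : MvPolynomial σ K →ₐ[K] MvPolynomial σ K).toRingHom
      = eval a := by
    apply MvPolynomial.ringHom_ext
    · intro r
      simp
    · intro i
      simp
  have := DFunLike.congr_fun h f
  simpa [constantCoeff_eq] using this

lemma ptIdeal_le_comap (a : σ → K) :
    ptIdeal a ≤ Ideal.comap (tau a) (idealOfVars σ K) := by
  rw [ptIdeal, Ideal.span_le]
  rintro f ⟨d, -, hf⟩
  simp only [SetLike.mem_coe, Ideal.mem_comap]
  rw [← pow_one (idealOfVars σ K), mem_pow_idealOfVars_iff']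
  intro s hs
  have hs0 : s = 0 := by
    rw [← Finsupp.degree_eq_zero_iff]
    omega
  rw [hs0, coeff_zero_tau, hf]

lemma ord_of_mem_ptIdeal_pow {a : σ → K} {m : ℕ} {F : MvPolynomial σ K}
    (hF : F ∈ ptIdeal a ^ m) : Ord a m F := by
  have h1 : ptIdeal a ^ m ≤ Ideal.comap (tau a) (idealOfVars σ K ^ m) :=
    (Ideal.pow_right_mono (ptIdeal_le_comap a) m).trans (Ideal.le_comap_pow _ _)
  exact h1 hF

lemma lin_mem_ptIdeal (a : σ → K) {j : σ} (hj : a j ≠ 0) (i : σ) :
    (X i - C (a i) * (C (a j)⁻¹ * X j) : MvPolynomial σ K) ∈ ptIdeal a := by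
  apply Ideal.subset_span
  refine ⟨1, ?_, ?_⟩
  · apply (isHomogeneous_X K i).sub
    rw [← mul_assoc, ← C_mul]
    exact isHomogeneous_C_mul_X _ _
  · simp [hj]

variable [Fintype σ]

lemma prod_lin_mem (a : σ → K) {j : σ} (hj : a j ≠ 0) (s : σ → ℕ) :
    (∏ i, (X i - C (a i) * (C (a j)⁻¹ * X j) : MvPolynomial σ K) ^ s i) ∈
      ptIdeal a ^ (∑ i, s i) := by
  rw [← Finset.prod_pow_eq_pow_sum]
  apply Ideal.prod_mem_prod
  intro i _
  exact Ideal.pow_mem_pow (lin_mem_ptIdeal a hj i) _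

lemma mem_ptIdeal_pow_of_ord {a : σ → K} {j : σ} (hj : a j ≠ 0) {m d : ℕ}
    {F : MvPolynomial σ K} (hF : F.IsHomogeneous d) (h : Ord a m F) : F ∈ ptIdeal a ^ m := by
  rw [taylor hF a j hj]
  apply Ideal.sum_mem
  intro s hs
  apply Ideal.mul_mem_left
  apply Ideal.mul_mem_left
  have h1 : m ≤ s.degree := by
    by_contra hlt
    push Not at hlt
    rw [ord_iff_coeff] at h
    exact (mem_support_iff.mp hs) (h s hlt)
  have h2 := prod_lin_mem a hj s
  rw [← Finsupp.degree_eq_sum] at h2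
  exact Ideal.pow_le_pow_right h1 h2

lemma mem_ptIdeal_pow_iff {a : σ → K} (ha : a ≠ 0) {m d : ℕ}
    {F : MvPolynomial σ K} (hF : F.IsHomogeneous d) : F ∈ ptIdeal a ^ m ↔ Ord a m F := by
  obtain ⟨j, hj⟩ := Function.ne_iff.mp ha
  exact ⟨ord_of_mem_ptIdeal_pow, mem_ptIdeal_pow_of_ord hj hF⟩

end PtIdeal

section Containment

variable {σ : Type*} [Fintype σ] {L : Type*} [Field L] (p : ℕ) [Fact p.Prime] [CharP L p]
  [PerfectRing L p] (e : ℕ)

/-- The containment `I ^ (M) ⊆ (I ^ (k)) ^ [q]` at one point, in terms of components. -/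
lemma cart_mem_ptIdeal_pow {a : σ → L} {j : σ} (hj : a j ≠ 0) {N M k : ℕ}
    {g : MvPolynomial σ L} (hg : g.IsHomogeneous N) (hord : Ord a M g)
    (hM : ∀ s : σ →₀ ℕ, s j = 0 → M ≤ s.degree → k ≤ ∑ i, s i / p ^ e) (ν : σ →₀ ℕ) :
    cart p e ν g ∈ ptIdeal a ^ k := by
  have hl : (X j - C (a j) * (C (a j)⁻¹ * X j) : MvPolynomial σ L) = 0 := by
    rw [← mul_assoc, ← C_mul, mul_inv_cancel₀ hj, C_1, one_mul, sub_self]
  rw [taylor hg a j hj, cart_sum]
  apply Ideal.sum_mem
  intro s hs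
  by_cases hsj : s j = 0
  · have h1 : M ≤ s.degree := by
      by_contra hlt
      push Not at hlt
      rw [ord_iff_coeff] at hord
      exact (mem_support_iff.mp hs) (hord s hlt)
    have h2 : (∏ i, (X i - C (a i) * (C (a j)⁻¹ * X j) : MvPolynomial σ L) ^ s i) =
        (∏ i, (X i - C (a i) * (C (a j)⁻¹ * X j) : MvPolynomial σ L) ^ (s i / p ^ e)) ^ p ^ e *
        (∏ i, (X i - C (a i) * (C (a j)⁻¹ * X j) : MvPolynomial σ L) ^ (s i % p ^ e)) := by
      rw [← Finset.prod_pow, ← Finset.prod_mul_distrib]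
      apply Finset.prod_congr rfl
      intro i _
      rw [← pow_mul, ← pow_add, Nat.div_add_mod']
    have h3 : ∀ (A B u r : MvPolynomial σ L), A * (B * (u ^ p ^ e * r)) =
        u ^ p ^ e * (A * (B * r)) := by
      intro A B u r; ring
    rw [h2, h3, cart_pow_mul]
    apply Ideal.mul_mem_right
    exact Ideal.pow_le_pow_right (hM s hsj h1) (prod_lin_mem a hj _)
  · have h2 : (∏ i, (X i - C (a i) * (C (a j)⁻¹ * X j) : MvPolynomial σ L) ^ s i) = 0 := by
      apply Finset.prod_eq_zero (Finset.mem_univ j)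
      rw [hl, zero_pow hsj]
    rw [h2, mul_zero, mul_zero, cart_zero]
    exact Ideal.zero_mem _

lemma pigeonhole {n q k M : ℕ} (hn : Fintype.card σ = n + 1) (hq : 0 < q)
    (hM : q * (k - 1) + n * (q - 1) < M) (j : σ) (s : σ →₀ ℕ) (hs : s j = 0)
    (hsM : M ≤ s.degree) : k ≤ ∑ i, s i / q := by
  classical
  by_contra hlt
  push Not at hlt
  rw [Finsupp.degree_eq_sum] at hsM
  have h1 : ∀ i ∈ Finset.univ.erase j, s i ≤ q * (s i / q) + (q - 1) := by
    intro i _
    have h2 := Nat.div_add_mod (s i) q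
    have h3 := Nat.mod_lt (s i) hq
    omega
  have h4 : ∑ i, s i = ∑ i ∈ Finset.univ.erase j, s i := by
    rw [← Finset.add_sum_erase _ _ (Finset.mem_univ j), hs, zero_add]
  have h5 : ∑ i ∈ Finset.univ.erase j, s i / q ≤ ∑ i, s i / q :=
    Finset.sum_le_sum_of_subset (Finset.erase_subset _ _)
  have h6 : ∑ i ∈ Finset.univ.erase j, s i ≤
      q * (∑ i ∈ Finset.univ.erase j, s i / q) + n * (q - 1) := by
    refine (Finset.sum_le_sum h1).trans ?_
    rw [Finset.sum_add_distrib, ← Finset.mul_sum, Finset.sum_const,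
      Finset.card_erase_of_mem (Finset.mem_univ j), Finset.card_univ, hn]
    simp
  have h7 : q * (∑ i ∈ Finset.univ.erase j, s i / q) ≤ q * (k - 1) :=
    Nat.mul_le_mul_left _ (by omega)
  omega

end Containment

end Pool.Agent.Helper63
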