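import Mathlib
import Pool.Agent.Helper63.PtIdeal

set_option autoImplicit false
set_option linter.unusedSectionVars false

open MvPolynomial

namespace Pool.Agent.Helper63

section Lower

variable {σ : Type*} [Fintype σ] {L : Type*} [Field L]

/-- In a perfect field of characteristic `p`, a polynomial with vanishing partial derivatives is a
`p`-th power. -/
lemma eq_pow_of_pderiv_eq_zero (p : ℕ) [Fact p.Prime] [CharP L p] [PerfectRing L p]
    (F : MvPolynomial σ L) (hF : ∀ i, pderiv i F = 0) :
    F = (cart p 1 0 F) ^ p := by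
  have h := sum_cart_pow p 1 F
  rw [Finset.sum_eq_single 0] at h
  · simpa using h.symm
  · intro ν hν hne
    have hν' := mem_box.mp hν
    rw [pow_one] at hν'
    have : cart p 1 ν F = 0 := by
      ext α
      rw [coeff_cart p 1 (by simpa using hν'), coeff_zero, pow_one]
      obtain ⟨i, hi⟩ : ∃ i, ν i ≠ 0 := by
        by_contra hall
        push Not at hall
        exact hne (Finsupp.ext hall)
      have h0 : coeff (p • α + ν) F = 0 := by
        have h1 : coeff (p • α + ν - Finsupp.single i 1) (pderiv i F) = 0 := by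
          rw [hF i, coeff_zero]
        rw [coeff_pderiv] at h1
        have hle : Finsupp.single i 1 ≤ p • α + ν := by
          rw [Finsupp.single_le_iff]
          simp only [Finsupp.coe_add, Pi.add_apply]
          omega
        rw [tsub_add_cancel_of_le hle] at h1
        have h2 : (((p • α + ν - Finsupp.single i 1 : σ →₀ ℕ) i : ℕ) : L) + 1 = ((ν i : ℕ) : L) := by
          have h3 : (p • α + ν - Finsupp.single i 1 : σ →₀ ℕ) i + 1 = p * α i + ν i := by
            simp only [Finsupp.coe_tsub, Finsupp.coe_add, Finsupp.coe_smul, Pi.sub_apply,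
              Pi.add_apply, Pi.smul_apply, smul_eq_mul, Finsupp.single_eq_same]
            omega
          have h4 : (((p • α + ν - Finsupp.single i 1 : σ →₀ ℕ) i + 1 : ℕ) : L) =
              ((p * α i + ν i : ℕ) : L) := by rw [h3]
          push_cast at h4
          rw [CharP.cast_eq_zero L p, zero_mul, zero_add] at h4
          exact h4
        rw [h2] at h1
        rcases mul_eq_zero.mp h1 with h5 | h5
        · exact h5
        · exfalso
          rw [CharP.cast_eq_zero_iff L p] at h5
          exact hi (Nat.eq_zero_of_dvd_of_lt h5 (hν' i))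
      rw [h0, map_zero]
    rw [this, zero_pow (by simpa using (Fact.out : p.Prime).ne_zero), zero_mul]
  · intro h0
    exfalso
    apply h0
    rw [mem_box]
    intro i
    simpa using (Fact.out : p.Prime).pos

lemma ord_root (p : ℕ) [Fact p.Prime] [CharP L p] [PerfectRing L p]
    {a : σ → L} {G : MvPolynomial σ L} {m m' : ℕ} (h : Ord a m (G ^ p))
    (hm : ∀ t < m', p * t < m) : Ord a m' G := by
  have hp0 : ∀ i : σ, (0 : σ →₀ ℕ) i < p ^ 1 := by
    intro i
    simpa using (Fact.out : p.Prime).pos
  rw [ord_iff_coeff] at *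
  intro s hs
  have h1 : cart p 1 0 ((tau a G) ^ p ^ 1 * 1) = tau a G * cart p 1 0 1 := cart_pow_mul p 1 0 _ _
  have h2 : cart p 1 0 (1 : MvPolynomial σ L) = 1 := by
    have := cart_tau_monomial_self p 1 (0 : σ → L) hp0
    simpa using this
  rw [h2, mul_one, mul_one, pow_one] at h1
  rw [← h1, coeff_cart p 1 hp0, add_zero, pow_one, ← map_pow, h, map_zero]
  rw [map_nsmul, smul_eq_mul]
  exact hm _ hs

open Classical in
/-- Lowering the order of vanishing by one while lowering the degree by one. -/
lemma lower (p : ℕ) [Fact p.Prime] [CharP L p] [PerfectRing L p]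
    {ι : Type*} [Nonempty ι] (a : ι → σ → L) (d : ℕ) :
    ∀ (F : MvPolynomial σ L), F ≠ 0 → F.IsHomogeneous d → ∀ (j : ι → ℕ),
      (∀ i, Ord (a i) (j i + 1) F) →
      1 ≤ d ∧ ∃ F' : MvPolynomial σ L, F' ≠ 0 ∧ F'.IsHomogeneous (d - 1) ∧
        ∀ i, Ord (a i) (j i) F' := by
  induction d using Nat.strong_induction_on with
  | _ d ih =>
    intro F hF0 hF j hord
    have hd : 1 ≤ d := by
      by_contra hlt
      have hd0 : d = 0 := by omega
      subst hd0
      obtain ⟨i⟩ := (inferInstance : Nonempty ι)
      have h1 := hord i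
      rw [ord_iff_coeff] at h1
      have h2 := h1 0 (by simp)
      have h3 : F = C (coeff 0 F) := by
        rw [← totalDegree_eq_zero_iff_eq_C]
        exact Nat.le_zero.mp hF.totalDegree_le
      rw [h3, tau_C, coeff_C, if_pos rfl] at h2
      rw [h2, C_0] at h3
      exact hF0 h3
    refine ⟨hd, ?_⟩
    by_cases hder : ∃ i, pderiv i F ≠ 0
    · obtain ⟨i, hi⟩ := hder
      exact ⟨pderiv i F, hi, hF.pderiv, fun i' => (hord i').pderiv i⟩
    · push Not at hder
      have hpp : 2 ≤ p := (Fact.out : p.Prime).two_le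
      set G := cart p 1 0 F with hG
      have hFG : F = G ^ p := eq_pow_of_pderiv_eq_zero p F hder
      have hG0 : G ≠ 0 := by
        intro h
        rw [h, zero_pow (by omega)] at hFG
        exact hF0 hFG
      have hp0 : ∀ i : σ, (0 : σ →₀ ℕ) i < p ^ 1 := by
        intro i
        simpa using (Fact.out : p.Prime).pos
      obtain ⟨b, hb, hbd⟩ := cart_isHomogeneous p 1 hF hp0 hG0
      rw [pow_one, map_zero, add_zero] at hbd
      have hbd' : b < d := by
        rcases Nat.eq_zero_or_pos b with hb0 | hb0
        · omega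
        · calc b = 1 * b := (one_mul b).symm
            _ < p * b := Nat.mul_lt_mul_of_pos_right (by omega) hb0
            _ = d := hbd
      have hordG : ∀ i, Ord (a i) (j i / p + 1) G := by
        intro i
        have h1 := hord i
        rw [hFG] at h1
        apply ord_root p h1
        intro t ht
        have h2 : t ≤ j i / p := by omega
        have h3 : p * t ≤ j i := by
          calc p * t ≤ p * (j i / p) := Nat.mul_le_mul_left _ h2
            _ ≤ j i := Nat.mul_div_le _ _
        omega
      obtain ⟨hb1, G', hG'0, hG', hordG'⟩ := ih b hbd' G hG0 hb (fun i => j i / p) hordG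
      refine ⟨G ^ (p - 1) * G', mul_ne_zero (pow_ne_zero _ hG0) hG'0, ?_, ?_⟩
      · have h1 := (hb.pow (p - 1)).mul hG'
        have h2 : b * (p - 1) + (b - 1) = d - 1 := by
          obtain ⟨p', hp'⟩ : ∃ p', p = p' + 1 := ⟨p - 1, by omega⟩
          subst hp'
          rw [← hbd]
          simp only [Nat.add_sub_cancel]
          have : (p' + 1) * b = b * p' + b := by ring
          omega
        rw [h2] at h1
        exact h1
      · intro i
        have h1 := ((hordG i).pow (p - 1)).mul (hordG' i)
        apply h1.mono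
        obtain ⟨p', hp'⟩ : ∃ p', p = p' + 1 := ⟨p - 1, by omega⟩
        subst hp'
        simp only [Nat.add_sub_cancel]
        have h2 := Nat.div_add_mod (j i) (p' + 1)
        have h3 := Nat.mod_lt (j i) (show 0 < p' + 1 by omega)
        have h4 : p' * (j i / (p' + 1) + 1) + j i / (p' + 1) =
          (p' + 1) * (j i / (p' + 1)) + p' := by ring
        omega

/-- Iterated lowering. -/
lemma lower_iter (p : ℕ) [Fact p.Prime] [CharP L p] [PerfectRing L p]
    {ι : Type*} [Nonempty ι] (a : ι → σ → L) (t : ℕ) :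
    ∀ (d : ℕ) (F : MvPolynomial σ L), F ≠ 0 → F.IsHomogeneous d → ∀ (j : ι → ℕ),
      (∀ i, Ord (a i) (j i + t) F) →
      t ≤ d ∧ ∃ F' : MvPolynomial σ L, F' ≠ 0 ∧ F'.IsHomogeneous (d - t) ∧
        ∀ i, Ord (a i) (j i) F' := by
  induction t with
  | zero =>
    intro d F hF0 hF j hord
    exact ⟨Nat.zero_le _, F, hF0, by simpa using hF, by simpa using hord⟩
  | succ t ih =>
    intro d F hF0 hF j hord
    obtain ⟨hd, F', hF'0, hF', hord'⟩ := lower p a d F hF0 hF (fun i => j i + t)
      (fun i => by simpa [add_assoc] using hord i)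
    obtain ⟨hd', F'', hF''0, hF'', hord''⟩ := ih (d - 1) F' hF'0 hF' j hord'
    refine ⟨by omega, F'', hF''0, ?_, hord''⟩
    have : d - 1 - t = d - (t + 1) := by omega
    rw [← this]
    exact hF''

end Lower

section Main

variable {σ : Type*} [Fintype σ] {L : Type*} [Field L]

/-- The key inequality in characteristic `p`: with `q = p ^ e`, a nonzero form of degree `N`
vanishing to order at least `(n + k - 1) * q * m i` at the points `a i` satisfies
`q * (A + n - 1) ≤ N`, where `A` is a lower bound for the degrees of nonzero forms vanishing to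
order at least `k * m i` at `a i`. -/
theorem charP_main (p : ℕ) [Fact p.Prime] [CharP L p] [PerfectRing L p]
    (e : ℕ) {n : ℕ} (hn : 1 ≤ n) (hcard : Fintype.card σ = n + 1)
    {ι : Type*} [Nonempty ι] (a : ι → σ → L) (ha : ∀ i, a i ≠ 0) (m : ι → ℕ)
    (hm : ∀ i, 1 ≤ m i) (k : ℕ) (hk : 1 ≤ k) (A : ℕ)
    (hA : ∀ (d : ℕ) (F : MvPolynomial σ L), F ≠ 0 → F.IsHomogeneous d →
      (∀ i, Ord (a i) (k * m i) F) → A ≤ d)
    (N : ℕ) (g : MvPolynomial σ L) (hg0 : g ≠ 0) (hg : g.IsHomogeneous N)
    (hord : ∀ i, Ord (a i) ((n + k - 1) * p ^ e * m i) g) :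
    p ^ e * (A + n - 1) ≤ N := by
  classical
  set q := p ^ e with hq
  have hqpos : 0 < q := pow_pos (Fact.out : p.Prime).pos e
  -- choose the top component
  let S := (box σ q).filter (fun ν => cart p e ν g ≠ 0)
  have hS : S.Nonempty := by
    by_contra hne
    rw [Finset.not_nonempty_iff_eq_empty] at hne
    apply hg0
    rw [← sum_cart_pow p e g]
    apply Finset.sum_eq_zero
    intro ν hν
    have : cart p e ν g = 0 := by
      by_contra hc
      have : ν ∈ S := Finset.mem_filter.mpr ⟨hν, hc⟩
      rw [hne] at this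
      exact absurd this (Finset.notMem_empty _)
    rw [this, zero_pow hqpos.ne', zero_mul]
  obtain ⟨μ, hμS, hμmax⟩ := Finset.exists_max_image S (fun ν => ν.degree) hS
  obtain ⟨hμbox, hμ0⟩ := Finset.mem_filter.mp hμS
  have hμ := mem_box.mp hμbox
  have htop : ∀ ν ∈ box σ q, cart p e ν g ≠ 0 → ν.degree ≤ μ.degree := by
    intro ν hν hc
    exact hμmax ν (Finset.mem_filter.mpr ⟨hν, hc⟩)
  obtain ⟨b, hb, hbN⟩ := cart_isHomogeneous p e hg hμ hμ0
  -- the top component lies in the `k`-th symbolic power
  have hk1 : ∀ i, Ord (a i) (k * m i) (cart p e μ g) := by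
    intro i
    obtain ⟨j, hj⟩ := Function.ne_iff.mp (ha i)
    apply ord_of_mem_ptIdeal_pow
    apply cart_mem_ptIdeal_pow p e hj hg (hord i)
    intro s hs0 hsM
    apply pigeonhole hcard hqpos ?_ j s hs0 hsM
    have h1 : 1 ≤ k * m i := Nat.mul_pos hk (hm i)
    have h2 : (n + k - 1) * q * m i = q * (k * m i) + (n - 1) * q * m i := by
      have : n + k - 1 = k + (n - 1) := by omega
      rw [this]; ring
    have h3 : (n - 1) * q ≤ (n - 1) * q * m i := Nat.le_mul_of_pos_right _ (hm i)
    have h4 : q * (k * m i - 1) + q = q * (k * m i) := by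
      obtain ⟨u, hu⟩ : ∃ u, k * m i = u + 1 := ⟨k * m i - 1, by omega⟩
      rw [hu]; simp; ring
    have h5 : n * (q - 1) + n = (n - 1) * q + q := by
      obtain ⟨u, hu⟩ : ∃ u, n = u + 1 := ⟨n - 1, by omega⟩
      obtain ⟨v, hv⟩ : ∃ v, q = v + 1 := ⟨q - 1, by omega⟩
      rw [hu, hv]; simp; ring
    rw [h2]
    omega
  -- lower
  by_cases hcase : (n - 1) * q ≤ μ.degree
  · have h1 := hA b _ hμ0 hb hk1
    calc q * (A + n - 1) = q * A + (n - 1) * q := by
          have : A + n - 1 = A + (n - 1) := by omega
          rw [this]; ring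
      _ ≤ q * b + μ.degree := Nat.add_le_add (Nat.mul_le_mul_left _ h1) hcase
      _ = N := hbN
  · push Not at hcase
    -- t = ⌈((n-1) q - |μ|) / q⌉
    set r := (n - 1) * q - μ.degree with hr
    set t := (r + (q - 1)) / q with ht
    have ht1 : r ≤ q * t := by
      have h1 := Nat.div_add_mod (r + (q - 1)) q
      have h2 := Nat.mod_lt (r + (q - 1)) hqpos
      rw [← ht] at h1
      omega
    have ht2 : ∀ u < t, q * u < r := by
      intro u hu
      have h1 := Nat.div_add_mod (r + (q - 1)) q
      rw [← ht] at h1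
      have h2 : q * (u + 1) ≤ q * t := Nat.mul_le_mul_left _ hu
      have h3 : q * (u + 1) = q * u + q := by ring
      omega
    have hord' : ∀ i, Ord (a i) (k * m i + t) (cart p e μ g) := by
      intro i
      apply ord_cart_of_top p e (a i) g hμ htop (hord i)
      intro u hu
      rw [← hq]
      have h2 : (n + k - 1) * q * m i = q * (k * m i) + (n - 1) * q * m i := by
        have : n + k - 1 = k + (n - 1) := by omega
        rw [this]; ring
      have h3 : (n - 1) * q ≤ (n - 1) * q * m i := Nat.le_mul_of_pos_right _ (hm i)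
      rw [h2]
      rcases Nat.lt_or_ge u (k * m i) with hu1 | hu1
      · have h4 : q * (u + 1) ≤ q * (k * m i) := Nat.mul_le_mul_left _ hu1
        have h5 : q * (u + 1) = q * u + q := by ring
        omega
      · obtain ⟨v, hv⟩ : ∃ v, u = k * m i + v := ⟨u - k * m i, by omega⟩
        have h6 : v < t := by omega
        have h7 := ht2 v h6
        have h8 : q * u = q * (k * m i) + q * v := by rw [hv]; ring
        omega
    obtain ⟨htb, F', hF'0, hF', hordF'⟩ := lower_iter p a t b _ hμ0 hb (fun i => k * m i) hord'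
    have h1 := hA _ F' hF'0 hF' hordF'
    have h2 : A + t ≤ b := by omega
    calc q * (A + n - 1) = q * A + (n - 1) * q := by
          have : A + n - 1 = A + (n - 1) := by omega
          rw [this]; ring
      _ ≤ q * A + (q * t + μ.degree) := by omega
      _ = q * (A + t) + μ.degree := by ring
      _ ≤ q * b + μ.degree := by
          have := Nat.mul_le_mul_left q h2
          omega
      _ = N := hbN

/-- The Demailly bound for fat points over a perfect field of characteristic `p`. -/
theorem charP_bound (p : ℕ) [Fact p.Prime] [CharP L p] [PerfectRing L p]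
    {n : ℕ} (hn : 1 ≤ n) (hcard : Fintype.card σ = n + 1)
    {ι : Type*} [Nonempty ι] (a : ι → σ → L) (ha : ∀ i, a i ≠ 0) (m : ι → ℕ)
    (hm : ∀ i, 1 ≤ m i) (k : ℕ) (hk : 1 ≤ k) (A : ℕ)
    (hA : ∀ (d : ℕ) (F : MvPolynomial σ L), F ≠ 0 → F.IsHomogeneous d →
      (∀ i, Ord (a i) (k * m i) F) → A ≤ d)
    (r : ℕ) (hr : 1 ≤ r)
    (N : ℕ) (g : MvPolynomial σ L) (hg0 : g ≠ 0) (hg : g.IsHomogeneous N)
    (hord : ∀ i, Ord (a i) (r * m i) g) :
    r * (A + n - 1) ≤ (n + k - 1) * N := by
  by_contra hlt
  push Not at hlt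
  -- choose a power of `p` larger than `r * N`
  obtain ⟨e, he⟩ : ∃ e, r * N < p ^ e :=
    ⟨r * N, Nat.lt_pow_self (Fact.out : p.Prime).one_lt⟩
  set q := p ^ e with hq
  set c := n + k - 1 with hc
  set s := (c * q + (r - 1)) / r with hs
  have hs1 : c * q ≤ s * r := by
    have h1 := Nat.div_add_mod (c * q + (r - 1)) r
    have h2 := Nat.mod_lt (c * q + (r - 1)) (show 0 < r by omega)
    rw [← hs] at h1
    have h3 : s * r = r * s := mul_comm _ _
    omega
  have hs2 : s * r ≤ c * q + r := by
    have h1 := Nat.div_mul_le_self (c * q + (r - 1)) r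
    rw [← hs] at h1
    omega
  have hmain := charP_main p e hn hcard a ha m hm k hk A hA (N * s) (g ^ s)
    (pow_ne_zero _ hg0) (hg.pow s) (by
      intro i
      have h1 := (hord i).pow s
      apply h1.mono
      calc (n + k - 1) * p ^ e * m i ≤ s * r * m i := Nat.mul_le_mul_right _ hs1
        _ = s * (r * m i) := by ring)
  rw [← hq] at hmain
  have h1 : r * (q * (A + n - 1)) ≤ (c * q + r) * N := by
    calc r * (q * (A + n - 1)) ≤ r * (N * s) := Nat.mul_le_mul_left _ hmain
      _ = (s * r) * N := by ring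
      _ ≤ (c * q + r) * N := Nat.mul_le_mul_right _ hs2
  have h2 : q * (c * N + 1) ≤ q * (r * (A + n - 1)) := Nat.mul_le_mul_left _ hlt
  have h3 : q * (r * (A + n - 1)) = r * (q * (A + n - 1)) := by ring
  have h4 : (c * q + r) * N = q * (c * N) + r * N := by ring
  have h5 : q * (c * N + 1) = q * (c * N) + q := by ring
  omega

end Main

end Pool.Agent.Helper63
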