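import Mathlib
import Pool.Agent.Helper63.CharP

set_option autoImplicit false
set_option linter.unusedSectionVars false
set_option linter.style.haveILetI false

open MvPolynomial

namespace Pool.Agent.Helper63

universe u

theorem int_isJacobsonRing : IsJacobsonRing ℤ := by
  rw [isJacobsonRing_iff_prime_eq]
  intro P hP
  by_cases h : P = ⊥
  · subst h
    apply le_antisymm _ Ideal.le_jacobson
    intro x hx
    rw [Ideal.mem_jacobson_bot] at hx
    have h1 := hx x
    rw [Int.isUnit_iff] at h1
    rw [Ideal.mem_bot]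
    have h2 := mul_self_nonneg x
    rcases h1 with h1 | h1
    · exact mul_self_eq_zero.mp (by linarith)
    · exfalso; linarith
  · haveI : P.IsMaximal := IsPrime.to_maximal_ideal h
    exact Ideal.jacobson_eq_self_of_isMaximal

/-- Every nontrivial commutative ring of finite type over `ℤ` maps to an algebraically closed
field of positive characteristic. -/
lemma exists_hom_charP (A : Type u) [CommRing A] [Nontrivial A] [Algebra.FiniteType ℤ A] :
    ∃ (p : ℕ) (_ : Fact p.Prime) (L : Type u) (_ : Field L) (_ : CharP L p)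
      (_ : PerfectRing L p), Nonempty (A →+* L) := by
  obtain ⟨m, hm⟩ := Ideal.exists_maximal A
  let κ := A ⧸ m
  letI : Field κ := Ideal.Quotient.field m
  haveI hft : Algebra.FiniteType ℤ κ :=
    Algebra.FiniteType.of_surjective (Ideal.Quotient.mkₐ ℤ m)
      (Ideal.Quotient.mkₐ_surjective ℤ m)
  haveI := int_isJacobsonRing
  haveI hfin : Module.Finite ℤ κ := finite_of_finite_type_of_isJacobsonRing ℤ κ
  obtain ⟨p, hp⟩ := CharP.exists κ
  rcases CharP.char_is_prime_or_zero κ p with hprime | hzero
  · haveI : Fact p.Prime := ⟨hprime⟩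
    refine ⟨p, inferInstance, AlgebraicClosure κ, inferInstance, inferInstance, inferInstance,
      ⟨(algebraMap κ (AlgebraicClosure κ)).comp (Ideal.Quotient.mk m)⟩⟩
  · exfalso
    subst hzero
    haveI : CharZero κ := CharP.charP_to_charZero κ
    haveI : Algebra.IsIntegral ℤ κ := Algebra.IsIntegral.of_finite ℤ κ
    have hinj : Function.Injective (algebraMap ℤ κ) := by
      intro a b hab
      simpa using hab
    exact Int.not_isField (isField_of_isIntegral_of_isField hinj (Field.toIsField κ))

section Matrices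

variable {σ : Type*} [Fintype σ] {R : Type*} [CommRing R]

/-- Exponents of degree exactly `D`. -/
abbrev Expo (σ : Type*) (D : ℕ) : Type _ := {β : σ →₀ ℕ // β.degree = D}

/-- Exponents of degree less than `k`. -/
abbrev ExpoLt (σ : Type*) (k : ℕ) : Type _ := {s : σ →₀ ℕ // s.degree < k}

instance (D : ℕ) : Finite (Expo σ D) := Finsupp.finite_of_degree_eq D

instance (k : ℕ) : Finite (ExpoLt σ k) := by
  have h : {s : σ →₀ ℕ | s.degree < k} = ⋃ D ∈ Finset.range k, {β : σ →₀ ℕ | β.degree = D} := by
    ext s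
    simp
  have h2 : ({s : σ →₀ ℕ | s.degree < k}).Finite := by
    rw [h]
    exact Set.Finite.biUnion (Finset.finite_toSet _) (fun D _ => Finsupp.finite_of_degree_eq D)
  exact h2

/-- The form of degree `D` with given coefficients. -/
noncomputable def ofCoeffs (D : ℕ) [Fintype (Expo σ D)] (v : Expo σ D → R) : MvPolynomial σ R :=
  ∑ β : Expo σ D, monomial β.1 (v β)

lemma coeff_ofCoeffs {D : ℕ} [Fintype (Expo σ D)] (v : Expo σ D → R) (β : Expo σ D) :
    coeff β.1 (ofCoeffs D v) = v β := by
  classical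
  rw [ofCoeffs, coeff_sum, Finset.sum_eq_single β]
  · rw [coeff_monomial, if_pos rfl]
  · intro γ _ hγ
    rw [coeff_monomial, if_neg]
    intro h
    exact hγ (Subtype.ext h)
  · intro h
    exact absurd (Finset.mem_univ _) h

lemma isHomogeneous_ofCoeffs {D : ℕ} [Fintype (Expo σ D)] (v : Expo σ D → R) :
    (ofCoeffs D v).IsHomogeneous D := by
  apply IsHomogeneous.sum
  intro β _
  exact isHomogeneous_monomial _ β.2

lemma ofCoeffs_coeff {D : ℕ} [Fintype (Expo σ D)] {F : MvPolynomial σ R}
    (hF : F.IsHomogeneous D) : ofCoeffs D (fun β => coeff β.1 F) = F := by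
  classical
  ext s
  by_cases hs : s.degree = D
  · exact coeff_ofCoeffs _ (⟨s, hs⟩ : Expo σ D)
  · rw [(isHomogeneous_ofCoeffs _).coeff_eq_zero hs, hF.coeff_eq_zero hs]

/-- The matrix of the vanishing conditions: rows are indexed by pairs (point, exponent `s` of
degree less than the required order), columns by the monomials of degree `D`. -/
noncomputable def condMat {ι : Type*} (D : ℕ) (a : ι → σ → R) (K : ι → ℕ) :
    Matrix (Σ i, ExpoLt σ (K i)) (Expo σ D) R :=
  fun w β => coeff w.2.1 (tau (a w.1) (monomial β.1 1))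

lemma condMat_mulVec {ι : Type*} {D : ℕ} [Fintype (Expo σ D)] (a : ι → σ → R) (K : ι → ℕ)
    (v : Expo σ D → R) (w : Σ i, ExpoLt σ (K i)) :
    (condMat D a K).mulVec v w = coeff w.2.1 (tau (a w.1) (ofCoeffs D v)) := by
  classical
  rw [ofCoeffs, map_sum, coeff_sum, Matrix.mulVec, dotProduct]
  apply Finset.sum_congr rfl
  intro β _
  have h : (monomial β.1 (v β) : MvPolynomial σ R) = v β • monomial β.1 1 := by
    rw [smul_monomial, smul_eq_mul, mul_one]
  rw [h, map_smul, coeff_smul, smul_eq_mul, condMat]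
  ring

lemma condMat_mulVec_eq_zero_iff {ι : Type*} {D : ℕ} [Fintype (Expo σ D)] (a : ι → σ → R)
    (K : ι → ℕ) (v : Expo σ D → R) :
    (condMat D a K).mulVec v = 0 ↔ ∀ i, Ord (a i) (K i) (ofCoeffs D v) := by
  constructor
  · intro h i
    rw [ord_iff_coeff]
    intro s hs
    have := congrFun h ⟨i, ⟨s, hs⟩⟩
    rw [condMat_mulVec] at this
    exact this
  · intro h
    funext w
    rw [condMat_mulVec]
    have := h w.1
    rw [ord_iff_coeff] at this
    exact this _ w.2.2

lemma condMat_map {ι : Type*} {S : Type*} [CommRing S] (φ : R →+* S) {D : ℕ}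
    (a : ι → σ → R) (K : ι → ℕ) :
    (condMat D a K).map φ = condMat D (fun i j => φ (a i j)) K := by
  ext w β
  rw [Matrix.map_apply, condMat, condMat, ← coeff_map, map_tau]
  simp

end Matrices

/-- A left inverse of an injective matrix over a field. -/
lemma exists_left_inverse {K : Type*} [Field K] {B W : Type*} [Fintype B] [Fintype W]
    [DecidableEq B] [DecidableEq W] (T : Matrix W B K)
    (hT : ∀ v : B → K, T.mulVec v = 0 → v = 0) : ∃ P : Matrix B W K, P * T = 1 := by
  obtain ⟨g, hg⟩ := LinearMap.exists_leftInverse_of_injective (Matrix.toLin' T)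
    (by
      rw [LinearMap.ker_eq_bot']
      intro v hv
      exact hT v (by simpa using hv))
  refine ⟨LinearMap.toMatrix' g, ?_⟩
  have h1 : LinearMap.toMatrix' (g ∘ₗ Matrix.toLin' T) = LinearMap.toMatrix' g * T := by
    rw [LinearMap.toMatrix'_comp, LinearMap.toMatrix'_toLin']
  rw [← h1, hg, LinearMap.toMatrix'_id]

section Main

variable {σ : Type*} [Fintype σ] {K : Type u} [Field K]

/-- **The Demailly bound for fat points over an arbitrary field.** -/
theorem main_bound {n : ℕ} (hn : 1 ≤ n) (hcard : Fintype.card σ = n + 1)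
    {ι : Type*} [Finite ι] [Nonempty ι] (a : ι → σ → K) (ha : ∀ i, a i ≠ 0) (m : ι → ℕ)
    (hm : ∀ i, 1 ≤ m i) (k : ℕ) (hk : 1 ≤ k) (A : ℕ)
    (hA : ∀ (d : ℕ) (F : MvPolynomial σ K), F ≠ 0 → F.IsHomogeneous d →
      (∀ i, Ord (a i) (k * m i) F) → A ≤ d)
    (r : ℕ) (hr : 1 ≤ r)
    (N : ℕ) (g : MvPolynomial σ K) (hg0 : g ≠ 0) (hg : g.IsHomogeneous N)
    (hord : ∀ i, Ord (a i) (r * m i) g) :
    r * (A + n - 1) ≤ (n + k - 1) * N := by
  classical
  haveI := Fintype.ofFinite ι
  -- nonzero coordinates
  choose j hj using fun i => Function.ne_iff.mp (ha i)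
  obtain ⟨s0, hs0⟩ := MvPolynomial.exists_coeff_ne_zero hg0
  -- the certificate in degree `A - 1`
  set D := A - 1 with hD
  haveI : Fintype (Expo σ D) := Fintype.ofFinite _
  haveI : ∀ i, Fintype (ExpoLt σ (k * m i)) := fun i => Fintype.ofFinite _
  have hT : A = 0 ∨ ∀ v : Expo σ D → K, (condMat D a (fun i => k * m i)).mulVec v = 0 →
      v = 0 := by
    rcases Nat.eq_zero_or_pos A with h0 | hpos
    · left; exact h0
    · right
      intro v hv
      rw [condMat_mulVec_eq_zero_iff] at hv
      have h1 : ofCoeffs D v = 0 := by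
        by_contra hne
        have := hA D _ hne (isHomogeneous_ofCoeffs v) hv
        omega
      funext β
      rw [← coeff_ofCoeffs v β, h1, coeff_zero]
      rfl
  obtain ⟨P, hP⟩ : ∃ P : Matrix (Expo σ D) (Σ i, ExpoLt σ (k * m i)) K,
      A = 0 ∨ P * condMat D a (fun i => k * m i) = 1 := by
    rcases hT with h | h
    · exact ⟨0, Or.inl h⟩
    · obtain ⟨P, hP⟩ := exists_left_inverse _ h
      exact ⟨P, Or.inr hP⟩
  -- the finitely generated subring
  let S : Set K := (Set.range fun x : Expo σ D × (Σ i, ExpoLt σ (k * m i)) => P x.1 x.2) ∪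
    (Set.range fun x : ι × σ => a x.1 x.2) ∪ (Set.range fun i : ι => (a i (j i))⁻¹) ∪
    (g.coeffs : Set K) ∪ {(coeff s0 g)⁻¹}
  have hSfin : S.Finite := by
    refine Set.Finite.union (Set.Finite.union (Set.Finite.union (Set.Finite.union
      (Set.finite_range _) (Set.finite_range _)) (Set.finite_range _)) ?_) ?_
    · exact Finset.finite_toSet _
    · exact Set.finite_singleton _
  let A0 : Subalgebra ℤ K := Algebra.adjoin ℤ S
  have hS : S ⊆ A0 := Algebra.subset_adjoin
  haveI : Algebra.FiniteType ℤ A0 := by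
    apply (Subalgebra.fg_iff_finiteType A0).mp
    exact ⟨hSfin.toFinset, by simp [A0]⟩
  obtain ⟨p, hpf, L, hLf, hLp, hLperf, ⟨φ⟩⟩ := exists_hom_charP A0
  let inc : A0 →+* K := A0.val.toRingHom
  have hinc : Function.Injective inc := Subtype.val_injective
  -- lift the data
  have ha' : ∀ i s, a i s ∈ A0 := fun i s => hS (by
    refine Or.inl (Or.inl (Or.inl (Or.inr ⟨(i, s), rfl⟩))))
  have hj' : ∀ i, (a i (j i))⁻¹ ∈ A0 := fun i => hS (by
    refine Or.inl (Or.inl (Or.inr ⟨i, rfl⟩)))
  have hP' : ∀ x y, P x y ∈ A0 := fun x y => hS (by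
    refine Or.inl (Or.inl (Or.inl (Or.inl ⟨(x, y), rfl⟩))))
  have hs0' : (coeff s0 g)⁻¹ ∈ A0 := hS (Or.inr rfl)
  have hg' : ∃ g' : MvPolynomial σ A0, MvPolynomial.map inc g' = g := by
    have : g ∈ Set.range (MvPolynomial.map inc) := by
      rw [mem_range_map_iff_coeffs_subset]
      intro x hx
      exact ⟨⟨x, hS (Or.inl (Or.inr hx))⟩, rfl⟩
    exact this
  obtain ⟨g', hg'⟩ := hg'
  let a' : ι → σ → A0 := fun i s => ⟨a i s, ha' i s⟩
  let P' : Matrix (Expo σ D) (Σ i, ExpoLt σ (k * m i)) A0 := fun x y => ⟨P x y, hP' x y⟩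
  have haa' : ∀ i, (fun s => inc (a' i s)) = a i := fun i => rfl
  -- the data over `L`
  let b : ι → σ → L := fun i s => φ (a' i s)
  have hb : ∀ i, b i ≠ 0 := by
    intro i h
    have h1 : b i (j i) = 0 := by rw [h]; rfl
    have h2 : (a' i (j i)) * (⟨(a i (j i))⁻¹, hj' i⟩ : A0) = 1 := by
      apply Subtype.ext
      change a i (j i) * (a i (j i))⁻¹ = 1
      exact mul_inv_cancel₀ (hj i)
    have h3 := congrArg φ h2
    rw [map_mul, map_one] at h3
    change b i (j i) * _ = 1 at h3
    rw [h1, zero_mul] at h3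
    exact zero_ne_one h3
  let gL : MvPolynomial σ L := MvPolynomial.map φ g'
  have hgL0 : gL ≠ 0 := by
    intro h
    have h1 : coeff s0 gL = 0 := by rw [h, coeff_zero]
    rw [coeff_map] at h1
    have h2 : coeff s0 g' * (⟨(coeff s0 g)⁻¹, hs0'⟩ : A0) = 1 := by
      apply hinc
      rw [map_mul, map_one, ← coeff_map, hg']
      exact mul_inv_cancel₀ hs0
    have h3 := congrArg φ h2
    rw [map_mul, map_one, h1, zero_mul] at h3
    exact zero_ne_one h3
  have hgL : gL.IsHomogeneous N := by
    apply IsHomogeneous.map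
    apply IsHomogeneous.of_map hinc
    rw [hg']
    exact hg
  have hordL : ∀ i, Ord (b i) (r * m i) gL := by
    intro i
    apply Ord.map φ
    apply Ord.of_map inc hinc
    rw [hg']
    exact hord i
  -- the lower bound over `L`
  have hAL : ∀ (d : ℕ) (F : MvPolynomial σ L), F ≠ 0 → F.IsHomogeneous d →
      (∀ i, Ord (b i) (k * m i) F) → A ≤ d := by
    intro d F hF0 hF hFord
    by_contra hlt
    push Not at hlt
    rcases hP with h0 | hP
    · omega
    have hTL : (P'.map φ) * condMat D b (fun i => k * m i) = 1 := by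
      have h1 : P' * condMat D a' (fun i => k * m i) = 1 := by
        have hinj : Function.Injective (fun M : Matrix (Expo σ D) (Expo σ D) A0 => M.map inc) :=
          Matrix.map_injective hinc
        apply hinj
        change (P' * condMat D a' (fun i => k * m i)).map inc = (1 : Matrix _ _ A0).map inc
        rw [Matrix.map_mul, condMat_map, Matrix.map_one _ (map_zero _) (map_one _)]
        exact hP
      have h2 := congrArg (fun M : Matrix (Expo σ D) (Expo σ D) A0 => M.map φ) h1
      rw [Matrix.map_mul, condMat_map, Matrix.map_one _ (map_zero _) (map_one _)] at h2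
      exact h2
    obtain ⟨i0⟩ := (inferInstance : Nonempty ι)
    let F' : MvPolynomial σ L := X (j i0) ^ (D - d) * F
    have hF'0 : F' ≠ 0 := mul_ne_zero (pow_ne_zero _ (X_ne_zero _)) hF0
    have hF' : F'.IsHomogeneous D := by
      have h1 := (isHomogeneous_X_pow (R := L) (j i0) (D - d)).mul hF
      have h2 : D - d + d = D := by omega
      rw [h2] at h1
      exact h1
    have hF'ord : ∀ i, Ord (b i) (k * m i) F' := fun i => (hFord i).mul_left _
    have h3 : (condMat D b (fun i => k * m i)).mulVec (fun β => coeff β.1 F') = 0 := by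
      rw [condMat_mulVec_eq_zero_iff, ofCoeffs_coeff hF']
      exact hF'ord
    have h4 : (fun β : Expo σ D => coeff β.1 F') = 0 := by
      have h5 := congrArg (fun v => (P'.map φ).mulVec v) h3
      simp only [Matrix.mulVec_mulVec, Matrix.mulVec_zero] at h5
      rw [hTL, Matrix.one_mulVec] at h5
      exact h5
    apply hF'0
    rw [← ofCoeffs_coeff hF', h4]
    simp [ofCoeffs]
  exact charP_bound p hn hcard b hb m hm k hk A hAL r hr N gL hgL0 hgL hordL

end Main

end Pool.Agent.Helper63
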